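import Pool.Agent.H95.FC.Targets

/-!
Module ALC1: the coefficients of index one.
-/

set_option autoImplicit false

open MeasureTheory Set Filter NumberField
open scoped Real nonZeroDivisors Matrix MatrixGroups

namespace Pool.Agent.H14.FC

open Pool.Agent.H31.CN Pool.Agent.H89.FM Pool.Agent.H61.FM Pool.Agent.H89.FC Pool.Agent.H95.FC

theorem coe_one_top (K : Type) [Field K] [NumberField K] :
    ((1 : (Ideal (𝓞 K))⁰) : Ideal (𝓞 K)) = ⊤ := by
  rw [OneMemClass.coe_one, Ideal.one_eq_top]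

theorem Nn_one_eq (K : Type) [Field K] [NumberField K] : Nn K 1 = {1} := by
  ext I
  rw [mem_Nn, Finset.mem_singleton]
  change Ideal.absNorm (I : Ideal (𝓞 K)) = 1 ↔ I = 1
  rw [Ideal.absNorm_eq_one_iff]
  constructor
  · intro h
    apply Subtype.ext
    rw [h, coe_one_top]
  · rintro rfl
    exact coe_one_top K

theorem pf_LC1 (hFLS : Pool.Agent.H89.FM.T_FLS) (hPRN : Pool.Agent.H95.CF.T_PRN) :
    Pool.Agent.H95.FC.T_LC1 := by
  intro K _ _ σ f m ψ hψ
  refine ⟨?_, ?_, ?_⟩
  · unfold lc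
    rw [Nn_one_eq, Finset.sum_singleton, coe_one_top]
    exact hψ.one
  · intro n hn
    unfold lc
    refine Finset.sum_eq_zero fun I hI => hψ.van _ fun h => hn ?_
    have h1 : (I : Ideal (𝓞 K)) ≠ ⊥ := nonZeroDivisors.coe_ne_zero I
    have h2 := (hPRN K f I h1).1 h
    rw [mem_Nn] at hI
    have h3 : Ideal.absNorm (I : Ideal (𝓞 K)) = n := hI
    rwa [h3] at h2
  · intro Q
    classical
    ext L
    rw [Finset.mem_filter, Finset.mem_singleton, (hFLS 1 L le_rfl).1, AddSubgroup.index_eq_one]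
    refine ⟨fun h => h.1, fun h => ⟨h, fun v _ => ?_⟩⟩
    rw [Nat.cast_one]
    exact one_dvd _

end Pool.Agent.H14.FC
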