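import Pool.Agent.H95.FC.Targets

/-!
Module ATRN: vectors proportional modulo `f`.
-/

set_option autoImplicit false

open MeasureTheory Set Filter NumberField
open scoped Real nonZeroDivisors Matrix MatrixGroups

namespace Pool.Agent.H14.FC

open Pool.Agent.H31.CN Pool.Agent.H89.FM Pool.Agent.H61.FM Pool.Agent.H89.FC Pool.Agent.H95.FC

theorem pf_TRN : Pool.Agent.H95.FC.T_TRN := by
  refine ⟨?_, ?_, ?_⟩
  · rintro f ⟨A, B, C⟩ u v w ⟨q, r, hqr⟩ ⟨a, ha⟩ ⟨b, hb⟩
    unfold val at hqr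
    unfold Pool.Agent.H89.FM.det at ha hb ⊢
    simp only at hqr
    refine ⟨q * ((A * v.1 + B * v.2) * (u.1 * b + w.1 * a) + C * v.2 * (u.2 * b + w.2 * a)) +
      r * (u.1 * w.2 - u.2 * w.1), ?_⟩
    linear_combination (-(u.1 * w.2 - u.2 * w.1)) * hqr +
      (q * ((A * v.1 + B * v.2) * w.1 + C * v.2 * w.2)) * ha +
      (q * ((A * v.1 + B * v.2) * u.1 + C * v.2 * u.2)) * hb
  · rintro f ⟨A, B, C⟩ v w ⟨q, r, hqr⟩ ⟨k, hk⟩
    unfold val at hqr
    unfold Pool.Agent.H89.FM.det at hk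
    simp only at hqr
    refine ⟨q * (A * v.1 + B * v.2) * w.1 + q * C * v.2 * w.2,
      (r * w.1 - q * C * v.2 * k, r * w.2 + q * (A * v.1 + B * v.2) * k), ?_⟩
    apply Prod.ext
    · simp only [Prod.fst_add, Prod.smul_fst, smul_eq_mul]
      linear_combination (-w.1) * hqr - q * C * v.2 * hk
    · simp only [Prod.snd_add, Prod.smul_snd, smul_eq_mul]
      linear_combination (-w.2) * hqr + q * (A * v.1 + B * v.2) * hk
  · intro f g Q v hg h
    exact h.of_isCoprime_of_dvd_right (by exact_mod_cast hg)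

end Pool.Agent.H14.FC
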