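import Pool.Agent.H6.FC.Lem

/-!
Board cfp_modules (MP_7500ea_al), row CPF: the central extension attached to `h` and `L`.
-/

set_option autoImplicit false

open scoped Classical ComplexConjugate

namespace Pool.Agent.H14.FC

open FI AMc AMt

section

variable {Y Γ S : Type} [Group Y] [Group Γ] [Group S]

/-- The factor `i` lies in the image of `h`. -/
def Jp (h : Γ →* Y) (L : Subgroup Y) {k : ℕ} (φ : L ≃* (Fin k → S)) (i : Fin k) : Prop :=
  ∀ s : S, ((φ.symm (Pi.mulSingle i s) : L) : Y) ∈ h.range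

/-- The preimage of the product of the factors in the image. -/
def NN (h : Γ →* Y) (L : Subgroup Y) {k : ℕ} (φ : L ≃* (Fin k → S)) : Subgroup Γ where
  carrier := {g | ∃ hl : h g ∈ L, ∀ i, ¬ Jp h L φ i → φ ⟨h g, hl⟩ i = 1}
  mul_mem' := by
    rintro a b ⟨ha, ha'⟩ ⟨hb, hb'⟩
    have hab : h (a * b) ∈ L := by rw [map_mul]; exact L.mul_mem ha hb
    refine ⟨hab, fun j hj => ?_⟩
    have h1 : (⟨h (a * b), hab⟩ : L) = ⟨h a, ha⟩ * ⟨h b, hb⟩ := Subtype.ext (map_mul h a b)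
    rw [h1, map_mul, Pi.mul_apply, ha' j hj, hb' j hj, mul_one]
  one_mem' := by
    have h0 : h 1 ∈ L := by rw [map_one]; exact L.one_mem
    refine ⟨h0, fun j _ => ?_⟩
    have h1 : (⟨h 1, h0⟩ : L) = 1 := Subtype.ext (map_one h)
    rw [h1, map_one, Pi.one_apply]
  inv_mem' := by
    rintro a ⟨ha, ha'⟩
    have hi : h a⁻¹ ∈ L := by rw [map_inv]; exact L.inv_mem ha
    refine ⟨hi, fun j hj => ?_⟩
    have h1 : (⟨h a⁻¹, hi⟩ : L) = ⟨h a, ha⟩⁻¹ := Subtype.ext (map_inv h a)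
    rw [h1, map_inv, Pi.inv_apply, ha' j hj, inv_one]

theorem NN_mem {h : Γ →* Y} {L : Subgroup Y} {k : ℕ} {φ : L ≃* (Fin k → S)} (n : NN h L φ) :
    h n ∈ L := n.2.choose

/-- The projection. -/
noncomputable def ppi (h : Γ →* Y) (L : Subgroup Y) {k : ℕ} (φ : L ≃* (Fin k → S)) :
    NN h L φ →* ({i : Fin k // Jp h L φ i} → S) where
  toFun n := fun j => φ ⟨h n, NN_mem n⟩ j.1
  map_one' := by
    funext j
    have h1 : (⟨h ((1 : NN h L φ) : Γ), NN_mem (1 : NN h L φ)⟩ : L) = 1 := by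
      apply Subtype.ext
      show h ((1 : NN h L φ) : Γ) = 1
      rw [OneMemClass.coe_one, map_one]
    rw [h1, map_one]
    rfl
  map_mul' a b := by
    funext j
    have h1 : (⟨h ((a * b : NN h L φ) : Γ), NN_mem (a * b)⟩ : L) =
        ⟨h (a : Γ), NN_mem a⟩ * ⟨h (b : Γ), NN_mem b⟩ := by
      apply Subtype.ext
      show h ((a * b : NN h L φ) : Γ) = h (a : Γ) * h (b : Γ)
      rw [MulMemClass.coe_mul, map_mul]
    rw [h1, map_mul]
    rfl

end

theorem pf_CPF (ACT : T_ACT) : T_CPF := by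
  intro Y Γ S _ _ _ _ _ _ hS Z h hZ L hL k φ
  obtain ⟨σ0, a0, h1, h2, -, -⟩ := ACT S Y hS L hL k φ
  -- conjugation of the factors
  have hconj : ∀ (y : Y) (i : Fin k) (s : S),
      y * ((φ.symm (Pi.mulSingle i s) : L) : Y) * y⁻¹ =
        ((φ.symm (Pi.mulSingle (σ0 y i) (a0 y i s)) : L) : Y) := by
    intro y i s
    set l : L := φ.symm (Pi.mulSingle i s) with hl
    have hl' : y * (l : Y) * y⁻¹ ∈ L := hL.conj_mem _ l.2 y
    have h3 := h1 y l ⟨_, hl'⟩ rfl
    have h4 : φ ⟨_, hl'⟩ = Pi.mulSingle (σ0 y i) (a0 y i s) := by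
      funext j'
      obtain ⟨j, rfl⟩ := (σ0 y).surjective j'
      rw [h3 j, hl, MulEquiv.apply_symm_apply]
      by_cases hj : j = i
      · subst hj
        rw [Pi.mulSingle_eq_same, Pi.mulSingle_eq_same]
      · rw [Pi.mulSingle_eq_of_ne hj, map_one, Pi.mulSingle_eq_of_ne]
        intro hcon
        exact hj ((σ0 y).injective hcon)
    have h5 : (⟨_, hl'⟩ : L) = φ.symm (Pi.mulSingle (σ0 y i) (a0 y i s)) := by
      rw [← h4, MulEquiv.symm_apply_apply]
    exact congrArg Subtype.val h5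
  have hJ1 : ∀ (g : Γ) (i : Fin k), Jp h L φ i → Jp h L φ (σ0 (h g) i) := by
    intro g i hi s
    have h3 := hconj (h g) i ((a0 (h g) i).symm s)
    rw [MulEquiv.apply_symm_apply] at h3
    rw [← h3]
    obtain ⟨g', hg'⟩ := hi ((a0 (h g) i).symm s)
    exact ⟨g * g' * g⁻¹, by rw [map_mul, map_mul, map_inv, hg']⟩
  have hJ : ∀ (g : Γ) (i : Fin k), Jp h L φ (σ0 (h g) i) ↔ Jp h L φ i := by
    intro g i
    refine ⟨fun hi => ?_, hJ1 g i⟩
    have h3 := hJ1 g⁻¹ _ hi
    rw [map_inv, map_inv] at h3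
    simpa using h3
  let σ : Γ →* Equiv.Perm {i : Fin k // Jp h L φ i} :=
    { toFun := fun g => (σ0 (h g)).subtypePerm (hJ g)
      map_one' := by
        ext j
        simp
      map_mul' := by
        intro a b
        ext j
        simp }
  refine ⟨{i : Fin k // Jp h L φ i}, Fintype.ofFinite _, NN h L φ, ppi h L φ, σ,
    fun g j => a0 (h g) j.1, ?_, fun n hn => hn.choose, rfl⟩
  refine ⟨hZ.cen, ?_, ?_, ?_, ?_, ?_, ?_⟩
  · -- normal
    refine ⟨?_⟩
    rintro n ⟨hn, hn'⟩ g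
    have hc : h (g * n * g⁻¹) = h g * h n * (h g)⁻¹ := by rw [map_mul, map_mul, map_inv]
    have hm : h (g * n * g⁻¹) ∈ L := by rw [hc]; exact hL.conj_mem _ hn _
    refine ⟨hm, fun i' hi' => ?_⟩
    obtain ⟨i, rfl⟩ := (σ0 (h g)).surjective i'
    rw [h1 (h g) ⟨h n, hn⟩ ⟨_, hm⟩ hc i, hn' i (fun hi => hi' (hJ1 g i hi)), map_one]
  · -- Z ≤ N
    intro z hz
    have h0 := (hZ.ker z).2 hz
    have hl : h z ∈ L := by rw [h0]; exact L.one_mem
    refine ⟨hl, fun i _ => ?_⟩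
    have h3 : (⟨h z, hl⟩ : L) = 1 := Subtype.ext h0
    rw [h3, map_one, Pi.one_apply]
  · -- surjective
    intro x
    set x' : Fin k → S := fun i => if hi : Jp h L φ i then x ⟨i, hi⟩ else 1 with hx'
    let inc : (Fin k → S) →* Y := L.subtype.comp φ.symm.toMonoidHom
    have h3 : x' ∈ h.range.comap inc := by
      refine Subgroup.pi_mem_of_mulSingle_mem x' fun i => ?_
      by_cases hi : Jp h L φ i
      · exact hi (x' i)
      · have h4 : x' i = 1 := by rw [hx']; simp only; rw [dif_neg hi]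
        rw [h4, Pi.mulSingle_one]
        exact Subgroup.one_mem _
    obtain ⟨g, hg⟩ := h3
    have hl : h g ∈ L := by rw [hg]; exact (φ.symm x').2
    have h5 : φ ⟨h g, hl⟩ = x' := by
      have h6 : (⟨h g, hl⟩ : L) = φ.symm x' := Subtype.ext hg
      rw [h6, MulEquiv.apply_symm_apply]
    have hgN : g ∈ NN h L φ := by
      refine ⟨hl, fun i hi => ?_⟩
      rw [h5, hx']
      simp only
      rw [dif_neg hi]
    refine ⟨⟨g, hgN⟩, ?_⟩
    funext j
    show φ ⟨h g, _⟩ j.1 = x j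
    rw [h5, hx']
    simp only
    rw [dif_pos j.2]
  · -- kernel
    intro n
    constructor
    · intro hn
      have h3 : φ ⟨h n, NN_mem n⟩ = 1 := by
        funext i
        by_cases hi : Jp h L φ i
        · exact congrFun hn ⟨i, hi⟩
        · exact n.2.choose_spec i hi
      have h4 : (⟨h n, NN_mem n⟩ : L) = 1 := by
        rw [← map_one φ] at h3
        exact φ.injective h3
      exact (hZ.ker n).1 (congrArg Subtype.val h4)
    · intro hn
      have h0 := (hZ.ker n).2 hn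
      funext j
      show φ ⟨h n, _⟩ j.1 = 1
      have h3 : (⟨h n, NN_mem n⟩ : L) = 1 := Subtype.ext h0
      rw [h3, map_one, Pi.one_apply]
  · -- action
    intro g n m hm j
    have hc : h m = h g * h n * (h g)⁻¹ := by rw [hm, map_mul, map_mul, map_inv]
    exact h1 (h g) ⟨h n, NN_mem n⟩ ⟨h m, NN_mem m⟩ hc j.1
  · -- cocycle
    intro g g' j
    show a0 (h (g * g')) j.1 = _
    rw [map_mul, h2]
    rfl

end Pool.Agent.H14.FC
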