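import Pool.Agent.H6.FC.Lem

/-!
Board cfp_modules (MP_7500ea_al), rows CIS and DLB.
-/

set_option autoImplicit false

open scoped Classical ComplexConjugate

namespace Pool.Agent.H14.FC

open FI AMc AMt

theorem pf_CIS (SQ : T_SQ) : T_CIS := by
  rintro e Y Y' _ _ _ _ ⟨f⟩ hCA Γ _ _ K U hKU θ hθ hinv h hK
  have hker : f.toMonoidHom.ker = ⊥ := (MonoidHom.ker_eq_bot_iff _).2 f.injective
  have hsol : Group.IsSolvable f.toMonoidHom.ker := by
    rw [hker]
    infer_instance
  have h1 := (SQ Y Y' f.toMonoidHom f.surjective hsol).1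
  have h2 := hCA Γ K U hKU θ hθ hinv (f.symm.toMonoidHom.comp h) (fun x hx => by
    rw [MonoidHom.comp_apply, hK x hx, map_one])
  rw [h1, MonoidHom.range_comp, Subgroup.index_map] at h2
  have hker2 : f.symm.toMonoidHom.ker = ⊥ := (MonoidHom.ker_eq_bot_iff _).2 f.symm.injective
  have hran : f.symm.toMonoidHom.range = ⊤ := MonoidHom.range_eq_top.2 f.symm.surjective
  rw [hker2, hran, Subgroup.index_top, sup_bot_eq, mul_one] at h2
  exact h2

theorem pf_DLB (CLF : T_CLF) (KKP : T_KKP) : T_DLB := by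
  intro e Y _ _ L _ hCA Γ _ _ h N hN hNL ψ hψ
  have hNtop : NIn N ⊤ := nin_of_normal hN
  obtain ⟨hNU, hkk, hdd⟩ := CLF Γ N ⊤ hNtop ψ hψ
  set U := stab ⊤ ψ with hU
  set g2 : Γ →* Y ⧸ L := (QuotientGroup.mk' L).comp h with hg2
  have hD := hCA Γ N U ⟨hNU, fun u _ g hg => hN.conj_mem g hg u⟩ ψ hψ (fun u hu => hu.2)
    (g2.comp U.subtype) (fun x hx => by
      rw [MonoidHom.comp_apply, hg2, MonoidHom.comp_apply]
      exact (QuotientGroup.eq_one_iff _).2 (hNL _ hx))
  have hr1 : (g2.comp U.subtype).range = U.map g2 := by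
    rw [MonoidHom.range_comp, Subgroup.range_subtype]
  have hr2 : g2.range.index = (L ⊔ h.range).index := by
    rw [hg2, MonoidHom.range_comp, idx_map_mk, sup_comm]
  have hi : (g2.comp U.subtype).range.index ≤ U.index * (L ⊔ h.range).index := by
    rw [hr1, Subgroup.index_map, hr2]
    exact Nat.mul_le_mul_right _ (Subgroup.index_antitone le_sup_left)
  have hrel : U.relIndex ⊤ = U.index := Subgroup.relIndex_top_right _
  have hddU : 0 ≤ dd U ψ := (Nat.cast_nonneg _).trans (KKP Γ N U hNU ψ hψ).2.2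
  rw [hkk] at hD
  rw [hdd, hrel]
  have hi' : ((g2.comp U.subtype).range.index : ℝ) ≤
      (U.index : ℝ) * ((L ⊔ h.range).index : ℝ) := by
    exact_mod_cast hi
  calc _ ≤ ((g2.comp U.subtype).range.index : ℝ) * dd U ψ := hD
    _ ≤ ((U.index : ℝ) * ((L ⊔ h.range).index : ℝ)) * dd U ψ :=
        mul_le_mul_of_nonneg_right hi' hddU
    _ = _ := by ring

end Pool.Agent.H14.FC
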