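import Pool.Agent.H89.FC.Targets
import Pool.Agent.H34.FM.BIV

/-!
Module KBI: the absolute values of the twisted sums of weight `2 m` are invariant.
-/

set_option autoImplicit false

open MeasureTheory Set Filter
open scoped Real Matrix MatrixGroups

namespace Pool.Agent.H14.FC

open Pool.Agent.H31.CN Pool.Agent.H89.FM Pool.Agent.H89.FC
open Pool.Agent.H34.FM (im mem_im im_im im_one index_im Dv_im gv_ne eg act_pos)

/-- the root of the form -/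
noncomputable def rt (Q : QF) : ℂ := (zx Q : ℂ) + (zy Q : ℂ) * Complex.I

/-- the factor of automorphy -/
noncomputable def jf (Q : QF) (g : SL(2, ℤ)) : ℂ := (g 0 0 : ℂ) + (g 1 0 : ℂ) * rt Q

theorem zy_pos (Q : QF) (h1 : 0 < Q.1) (h2 : 0 < dsc Q) : 0 < zy Q := by
  unfold zy
  have h3 : (0 : ℝ) < Q.1 := by exact_mod_cast h1
  have h4 : (0 : ℝ) < dsc Q := by exact_mod_cast h2
  have := Real.sqrt_pos.2 h4
  positivity

theorem rt_eq (Q : QF) : rt Q =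
    ((Q.2.1 : ℂ) + Complex.I * (Real.sqrt (dsc Q) : ℝ)) / (2 * Q.1) := by
  unfold rt zx zy
  push_cast
  ring

theorem rt_act (Q : QF) (g : SL(2, ℤ)) (h1 : 0 < Q.1) (h2 : 0 < dsc Q) :
    (g 0 1 : ℂ) + (g 1 1 : ℂ) * rt Q = jf Q g * rt (act Q g) := by
  have hA := act_pos Q g h1 h2
  have hd : dsc (act Q g) = dsc Q := Pool.Agent.H50.CN.dsc_act Q g
  have hdet : (g 0 0 : ℂ) * g 1 1 - g 0 1 * g 1 0 = 1 := by
    exact_mod_cast Pool.Agent.H50.CN.det_one g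
  have hs : (((Real.sqrt (dsc Q) : ℝ) : ℂ)) ^ 2 = 4 * Q.1 * Q.2.2 - Q.2.1 ^ 2 := by
    have h4 : (0 : ℝ) ≤ dsc Q := by exact_mod_cast h2.le
    have h5 : (Real.sqrt (dsc Q)) ^ 2 = (dsc Q : ℝ) := Real.sq_sqrt h4
    rw [← Complex.ofReal_pow, h5]
    unfold dsc
    push_cast
    ring
  have hI : Complex.I ^ 2 = -1 := Complex.I_sq
  unfold jf
  rw [rt_eq, rt_eq, hd]
  set d : ℂ := ((Real.sqrt (dsc Q) : ℝ) : ℂ) with hdd
  have e1 : ((act Q g).1 : ℂ) = Q.1 * (g 0 0 : ℂ) ^ 2 + Q.2.1 * g 0 0 * g 1 0 +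
      Q.2.2 * (g 1 0 : ℂ) ^ 2 := by
    unfold act val
    push_cast
    ring
  have e2 : ((act Q g).2.1 : ℂ) = 2 * Q.1 * g 0 0 * g 0 1 + Q.2.1 * (g 0 0 * g 1 1 +
      g 0 1 * g 1 0) + 2 * Q.2.2 * g 1 0 * g 1 1 := by
    unfold act
    push_cast
    ring
  have hA0 : ((act Q g).1 : ℂ) ≠ 0 := by
    have : (act Q g).1 ≠ 0 := hA.ne'
    exact_mod_cast this
  have ha0 : (Q.1 : ℂ) ≠ 0 := by
    have : Q.1 ≠ 0 := h1.ne'
    exact_mod_cast this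
  have key : (2 * Q.1 * (g 0 1 : ℂ) + g 1 1 * (Q.2.1 + Complex.I * d)) * (2 * (act Q g).1) =
      (2 * Q.1 * (g 0 0 : ℂ) + g 1 0 * (Q.2.1 + Complex.I * d)) *
        ((act Q g).2.1 + Complex.I * d) := by
    rw [e1, e2]
    linear_combination (-(g 1 0 : ℂ) * (4 * Q.1 * Q.2.2 - Q.2.1 ^ 2) +
      Complex.I * d * (2 * Q.1 * g 0 0 + Q.2.1 * g 1 0)) * hdet + (-(g 1 0 : ℂ) * d ^ 2) * hI +
      (g 1 0 : ℂ) * hs
  have f1 : (g 0 1 : ℂ) + (g 1 1 : ℂ) * ((Q.2.1 + Complex.I * d) / (2 * Q.1)) =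
      (2 * Q.1 * (g 0 1 : ℂ) + g 1 1 * (Q.2.1 + Complex.I * d)) / (2 * Q.1) := by
    field_simp
  have f2 : ((g 0 0 : ℂ) + (g 1 0 : ℂ) * ((Q.2.1 + Complex.I * d) / (2 * Q.1))) =
      (2 * Q.1 * (g 0 0 : ℂ) + g 1 0 * (Q.2.1 + Complex.I * d)) / (2 * Q.1) := by
    field_simp
  rw [f1, f2, div_mul_div_comm, div_eq_div_iff (by simpa using ha0) (by simp [ha0, hA0])]
  linear_combination (2 * (Q.1 : ℂ)) * key

theorem lin_act (Q : QF) (g : SL(2, ℤ)) (h1 : 0 < Q.1) (h2 : 0 < dsc Q) (v : ℤ × ℤ) :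
    ((gv g v).1 : ℂ) + (gv g v).2 * rt Q = jf Q g * ((v.1 : ℂ) + v.2 * rt (act Q g)) := by
  have h := rt_act Q g h1 h2
  have e : ((gv g v).1 : ℂ) + (gv g v).2 * rt Q =
      v.1 * jf Q g + v.2 * ((g 0 1 : ℂ) + (g 1 1 : ℂ) * rt Q) := by
    unfold gv jf
    push_cast
    ring
  rw [e, h]
  ring

theorem jf_ne (Q : QF) (g : SL(2, ℤ)) (h1 : 0 < Q.1) (h2 : 0 < dsc Q) : jf Q g ≠ 0 := by
  intro h
  have hy := zy_pos Q h1 h2
  have him : (jf Q g).im = (g 1 0 : ℝ) * zy Q := by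
    unfold jf rt
    simp
  have h3 : (g 1 0 : ℝ) * zy Q = 0 := by
    rw [← him, h]
    simp
  have h4 : (g 1 0 : ℝ) = 0 := by
    rcases mul_eq_zero.1 h3 with h5 | h5
    · exact h5
    · exact absurd h5 hy.ne'
  have h5 : g 1 0 = 0 := by exact_mod_cast h4
  have h6 : (g 0 0 : ℂ) = 0 := by
    have : jf Q g = (g 0 0 : ℂ) := by
      unfold jf
      rw [h5]
      simp
    rw [← this, h]
  have h7 : g 0 0 = 0 := by exact_mod_cast h6
  have h8 := Pool.Agent.H50.CN.det_one g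
  rw [h5, h7] at h8
  simp at h8

/-- the angular factor as a quotient -/
theorem an_eq (Q : QF) (v : ℤ × ℤ) : an (zx Q) (zy Q) v =
    ((v.1 : ℂ) + v.2 * rt Q) / (starRingEnd ℂ) ((v.1 : ℂ) + v.2 * rt Q) := by
  unfold Pool.Agent.H89.FC.an rt
  congr 1
  simp only [map_add, map_mul, Complex.conj_ofReal, Complex.conj_I]
  rw [map_intCast, map_intCast]
  ring

/-- the factor of the twisted sums -/
noncomputable def jq (Q : QF) (g : SL(2, ℤ)) : ℂ := jf Q g / (starRingEnd ℂ) (jf Q g)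

theorem jq_norm (Q : QF) (g : SL(2, ℤ)) (h1 : 0 < Q.1) (h2 : 0 < dsc Q) : ‖jq Q g‖ = 1 := by
  unfold jq
  rw [norm_div, Complex.norm_conj]
  exact div_self (norm_ne_zero_iff.2 (jf_ne Q g h1 h2))

theorem an_act (Q : QF) (g : SL(2, ℤ)) (h1 : 0 < Q.1) (h2 : 0 < dsc Q) (v : ℤ × ℤ) :
    an (zx Q) (zy Q) (gv g v) = jq Q g * an (zx (act Q g)) (zy (act Q g)) v := by
  rw [an_eq, an_eq, lin_act Q g h1 h2, map_mul, mul_div_mul_comm]
  rfl

theorem Em_im (hQZV : T_QZV) (m : ℤ) (s : ℂ) (n : ℕ) (L : AddSubgroup (ℤ × ℤ)) (Q : QF)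
    (g : SL(2, ℤ)) (h1 : 0 < Q.1) (h2 : 0 < dsc Q) :
    Em m s n (im g L) (zx Q) (zy Q) = jq Q g ^ m * Em m s n L (zx (act Q g)) (zy (act Q g)) := by
  classical
  have hd : dsc (act Q g) = dsc Q := Pool.Agent.H50.CN.dsc_act Q g
  unfold Em
  rw [← tsum_mul_left, ← (eg g).toEquiv.tsum_eq (fun w : ℤ × ℤ =>
    if w ∈ im g L ∧ w ≠ 0 then an (zx Q) (zy Q) w ^ m *
      Kmc m.natAbs 1 s ((qz (zx Q) (zy Q) w / n : ℝ) : ℂ) else 0)]
  refine tsum_congr fun v => ?_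
  have e1 : (eg g).toEquiv v = gv g v := rfl
  rw [e1]
  have e2 : qz (zx (act Q g)) (zy (act Q g)) v = qz (zx Q) (zy Q) (gv g v) := by
    rw [hQZV (act Q g) v (act_pos Q g h1 h2) (by rw [hd]; exact h2), hQZV Q (gv g v) h1 h2, hd,
      Pool.Agent.H50.CN.val_act]
  by_cases h : v ∈ L ∧ v ≠ 0
  · rw [if_pos h, if_pos ⟨(mem_im g L v).2 h.1, (gv_ne g v).2 h.2⟩, e2, an_act Q g h1 h2,
      mul_zpow, mul_assoc]
  · rw [if_neg h, if_neg (fun h' => h ⟨(mem_im g L v).1 h'.1, (gv_ne g v).1 h'.2⟩), mul_zero]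

open Classical in
theorem Bm_im (hQZV : T_QZV) (hFLS : T_FLS) (m : ℤ) (s : ℂ) (α : ℕ → ℂ) (N : ℕ) (Q : QF)
    (g : SL(2, ℤ)) (h1 : 0 < Q.1) (h2 : 0 < dsc Q) :
    jq Q g ^ m * Bm m s α N (act Q g) = Bm m s α N Q := by
  unfold Bm
  rw [Finset.mul_sum]
  refine Finset.sum_congr rfl fun n hn => ?_
  have hn1 : 1 ≤ n := by
    unfold Sq at hn
    rw [Finset.mem_filter, Finset.mem_Icc] at hn
    exact hn.1.1
  rw [mul_left_comm, Finset.mul_sum]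
  congr 1
  have hmem : ∀ L : AddSubgroup (ℤ × ℤ), im g L ∈ Ls n ↔ L ∈ Ls n := by
    intro L
    rw [(hFLS n _ hn1).1, (hFLS n L hn1).1, index_im]
  refine Finset.sum_nbij' (fun L => im g L) (fun L => im g⁻¹ L) ?_ ?_ ?_ ?_ ?_
  · intro L hL
    rw [Finset.mem_filter] at hL ⊢
    exact ⟨(hmem L).2 hL.1, (Dv_im g n L Q).1 hL.2⟩
  · intro L hL
    rw [Finset.mem_filter] at hL ⊢
    have e : im g (im g⁻¹ L) = L := by rw [im_im, mul_inv_cancel, im_one]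
    refine ⟨(hmem _).1 (by rw [e]; exact hL.1), (Dv_im g n _ Q).2 ?_⟩
    rw [e]
    exact hL.2
  · intro L _
    change im g⁻¹ (im g L) = L
    rw [im_im, inv_mul_cancel, im_one]
  · intro L _
    change im g (im g⁻¹ L) = L
    rw [im_im, mul_inv_cancel, im_one]
  · intro L _
    exact (Em_im hQZV m s n L Q g h1 h2).symm

theorem pf_BIVm (hQZV : T_QZV) (hFLS : T_FLS) : T_BIVm := by
  intro m s α N Q g h1 h2
  refine ⟨act_pos Q g h1 h2, Pool.Agent.H50.CN.dsc_act Q g, ?_⟩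
  rw [← Bm_im hQZV hFLS m s α N Q g h1 h2, norm_mul, norm_zpow, jq_norm Q g h1 h2, one_zpow,
    one_mul]

end Pool.Agent.H14.FC
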