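import Pool.Agent.H89.FC.Targets
import Pool.Agent.H19.FM.CEL

/-!
Module KCE: the twisted second moment of weight `2 m` over a cell.
-/

set_option autoImplicit false
set_option linter.unusedVariables false

open MeasureTheory Set Filter
open scoped Real Matrix MatrixGroups

namespace Pool.Agent.H14.FC

open Pool.Agent.H31.CN Pool.Agent.H89.FM Pool.Agent.H89.FC
open Pool.Agent.H19.FM (qc_real isOpen_Rg nr_ge pow_bound)

theorem tum_facts (m : ℕ) (t : ℝ) : ‖tum m t‖ = 1 ∧ 0 < (tum m t).re := by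
  unfold tum
  refine ⟨Complex.norm_exp_ofReal_mul_I _, ?_⟩
  rw [Complex.exp_ofReal_mul_I_re]
  exact Real.cos_arctan_pos _

theorem Ecm_real (hROT : T_ROTm) (m : ℤ) {n : ℕ} {L : AddSubgroup (ℤ × ℤ)} (hn : 1 ≤ n)
    (hL : L ∈ Ls n) {y : ℝ} (hy : 0 < y) (x : ℝ) (s : ℂ) :
    Ecm m s n L (x : ℂ) (y : ℂ) = Em m s n L x y := by
  have h := (hROT m n L x y s (tum m.natAbs s.im) hn hL hy (tum_facts _ _).1
    (tum_facts _ _).2).tsum_eq
  rw [← h]
  unfold Ecm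
  refine tsum_congr fun v => ?_
  rw [qc_real]

theorem cG_nonneg (m : ℕ) (t : ℝ) : 0 ≤ cG m t := by
  unfold cG
  positivity

theorem Rg_of_ball' {ρ t u c₁ c₂ : ℝ} (hρ : 1 ≤ ρ) (h1 : |c₁| ≤ 4 * ρ)
    (h2 : ρ / 5 ≤ c₂) (h3 : c₂ ≤ 2 * ρ) {z w : ℂ}
    (hz : ‖z - c₁‖ ≤ 2 * (ρ / (5000 * (1 + |t| + |u|))))
    (hw : ‖w - c₂‖ ≤ 2 * (ρ / (5000 * (1 + |t| + |u|)))) : Rg ρ (|t| + |u|) z w := by
  rw [add_assoc, ← abs_of_nonneg (add_nonneg (abs_nonneg t) (abs_nonneg u))] at hz hw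
  exact Pool.Agent.H19.FM.Rg_of_ball hρ h1 h2 h3 hz hw

theorem pf_CELm (hLS : T_LS) (hECB : T_ECBm) (hECC : T_ECCm) (hCAS : T_CAS) (hROT : T_ROTm)
    (hEXP : T_EXPm) (hFLS : T_FLS) (hMIN : T_MIN) : T_CELm := by
  intro ε hε
  obtain ⟨d0, hd0, hLS⟩ := hLS (ε / 2) (by linarith)
  set δ := min d0 (min (ε / 10) (1 / 8)) with hδdef
  have hδ0 : 0 < δ := lt_min hd0 (lt_min (by linarith) (by norm_num))
  have hδ1 : δ ≤ d0 := min_le_left _ _
  have hδ2 : δ ≤ ε / 10 := (min_le_right _ _).trans (min_le_left _ _)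
  have hδ3 : δ ≤ 1 / 8 := (min_le_right _ _).trans (min_le_right _ _)
  set κ := min (1 / 8) (ε / 100) with hκdef
  have hκ0 : 0 < κ := lt_min (by norm_num) (by linarith)
  have hκ1 : κ ≤ 1 / 8 := min_le_left _ _
  have hκ2 : κ ≤ ε / 100 := min_le_right _ _
  obtain ⟨CL, hCL0, hLS⟩ := hLS δ hδ0 hδ1
  obtain ⟨CE, kE, hCE0, hECB⟩ := hECB κ hκ0 hκ1
  obtain ⟨CB, hCB0, hEXP⟩ := hEXP κ hκ0 hκ1
  refine ⟨κ, hκ0, hκ1, δ, hδ0, hδ3, hδ2, 16 * CL * (CB * CE) ^ 2, 2 * kE, by positivity, ?_⟩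
  intro m s Y ρ c₁ c₂ P N α S hs hY hρ hρY hN hNY hα hP hc1 hc2 hc3 hS
  obtain ⟨β, hβ, hB⟩ := hEXP m s N α hs hN hα
  have hY0 : 0 < Y := by linarith
  have hρ0 : 0 < ρ := by linarith
  have hs8 : |s.re - 1 / 2| ≤ 1 / 8 := hs.trans hκ1
  have hN1 : (1 : ℝ) ≤ N := by exact_mod_cast hN
  have hNY2 : (N : ℝ) ≤ Y ^ (2 : ℝ) :=
    hNY.trans (Real.rpow_le_rpow_of_exponent_le hY (by linarith))
  have hSq : ∀ n ∈ Sq N, 1 ≤ n ∧ n ≤ N := by
    intro n hn
    unfold Sq at hn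
    rw [Finset.mem_filter, Finset.mem_Icc] at hn
    exact hn.1
  set F : QF → ℂ → ℂ → ℂ := fun Q x y =>
    ∑ n ∈ Sq N, ∑ L ∈ Ls n, β n / n * Ecm m s n L x y * (Rn n L Q : ℂ) with hF
  have hBF : ∀ Q ∈ S, Bm m s α N Q = F Q (zx Q) (zy Q) := by
    intro Q hQ
    obtain ⟨hQ1, hQ2, -⟩ := hS Q hQ
    have hy : 0 < zy Q := by
      unfold zy
      have h1 : (0 : ℝ) < Q.1 := by exact_mod_cast hQ1
      have h2 : (0 : ℝ) < dsc Q := by exact_mod_cast hQ2
      positivity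
    rw [hB Q hQ1 hQ2, hF]
    refine Finset.sum_congr rfl fun n hn => Finset.sum_congr rfl fun L hL => ?_
    rw [Ecm_real hROT m (hSq n hn).1 hL hy]
  set T : ℝ := (1 + |s.im| + |(m : ℝ)|) ^ kE with hT
  set E : ℝ := cG m.natAbs s.im with hE
  set M : ℝ := (CB * CE * T * E) ^ 2 * (N * Y ^ (14 * κ)) with hM
  have hE0 : 0 ≤ E := cG_nonneg _ _
  have hM0 : 0 ≤ M := by positivity
  have hT0 : 0 < 1 + |s.im| + |(m : ℝ)| := by positivity
  set R : ℝ := ρ / (5000 * (1 + |s.im| + |(m : ℝ)|)) with hR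
  have hR0 : 0 < R := by positivity
  set U : Set (ℂ × ℂ) := {p | Rg ρ (|s.im| + |(m : ℝ)|) p.1 p.2} with hU
  have key := hCAS S F U (c₁ : ℂ) (c₂ : ℂ) R (CL * Y ^ (3 + ε / 2) * ρ * M)
    (fun Q => (zx Q : ℂ)) (fun Q => (zy Q : ℂ)) hR0 (isOpen_Rg ρ (|s.im| + |(m : ℝ)|))
    (by
      rintro ⟨z, w⟩ ⟨hz, hw⟩
      rw [mem_closedBall_iff_norm] at hz hw
      exact Rg_of_ball' hρ hc1 hc2 hc3 hz hw)
    (by
      intro Q _
      have h1 : ∀ n ∈ Sq N, ∀ L ∈ Ls n, ContinuousOn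
          (fun p : ℂ × ℂ => β n / n * Ecm m s n L p.1 p.2 * (Rn n L Q : ℂ)) U := by
        intro n hn L hL
        exact (continuousOn_const.mul (hECC ρ m n L s hρ0 (hSq n hn).1 hL hs8).1).mul
          continuousOn_const
      exact continuousOn_finsetSum _ fun n hn => continuousOn_finsetSum _ fun L hL =>
        h1 n hn L hL)
    (by
      rintro Q - ⟨x, y⟩ hp
      have h1 : Rg ρ (|s.im| + |(m : ℝ)|) x y := hp
      constructor
      · exact DifferentiableAt.fun_sum fun n hn => DifferentiableAt.fun_sum fun L hL =>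
          ((((hECC ρ m n L s hρ0 (hSq n hn).1 hL hs8).2 x y h1).1).const_mul _).mul_const _
      · exact DifferentiableAt.fun_sum fun n hn => DifferentiableAt.fun_sum fun L hL =>
          ((((hECC ρ m n L s hρ0 (hSq n hn).1 hL hs8).2 x y h1).2).const_mul _).mul_const _)
    (by
      intro Q hQ
      obtain ⟨-, -, -, h1, h2⟩ := hS Q hQ
      constructor
      · rw [← Complex.ofReal_sub, Complex.norm_real, Real.norm_eq_abs, hR,
          le_div_iff₀ (by positivity)]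
        linarith
      · rw [← Complex.ofReal_sub, Complex.norm_real, Real.norm_eq_abs, hR,
          le_div_iff₀ (by positivity)]
        linarith)
    (by
      intro z w hz hw
      have hRg : Rg ρ (|s.im| + |(m : ℝ)|) z w := Rg_of_ball' hρ hc1 hc2 hc3 hz.le hw.le
      have h1 := hLS Y ρ N M P S (fun n L => β n / n * Ecm m s n L z w) hY hρ hρY hN1 hNY hM0 hP
        (fun Q hQ => (hS Q hQ).2.2.1) (by
          rw [Nat.floor_natCast]
          intro n hn L hL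
          obtain ⟨hn1, hnN⟩ := hSq n hn
          have hn1' : (1 : ℝ) ≤ n := by exact_mod_cast hn1
          have hnN' : (n : ℝ) ≤ N := by exact_mod_cast hnN
          obtain ⟨v, hv, hv0, hvm, -, -⟩ := hMIN ρ n L hρ0 hn1 hL
          have hm0 : 1 / Y ≤ mn ρ L := by
            rw [← hvm]
            refine le_trans ?_ (nr_ge hρ hv0)
            exact one_div_le_one_div_of_le hρ0 hρY
          have hm0' : 0 < mn ρ L := lt_of_lt_of_le (by positivity) hm0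
          have hb := hβ n hn
          have he := hECB ρ m n L s z w hρ0 hn1 hL hs hRg
          have hp := pow_bound hκ0 hY hn1' hnN' hNY2 hm0
          set p := ((N : ℝ) / n) ^ (1 / 2 + 2 * κ) with hpdef
          set q := ((n : ℝ) / mn ρ L) ^ (1 / 2 + κ) with hqdef
          have hp0 : 0 ≤ p := by positivity
          have hq0 : 0 ≤ q := by positivity
          have e1 : ‖β n / (n : ℂ) * Ecm m s n L z w‖ ^ 2 * (n : ℝ) ^ 2 * mn ρ L =
              ‖β n‖ ^ 2 * ‖Ecm m s n L z w‖ ^ 2 * mn ρ L := by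
            rw [norm_mul, norm_div, Complex.norm_natCast]
            field_simp
          rw [e1]
          calc ‖β n‖ ^ 2 * ‖Ecm m s n L z w‖ ^ 2 * mn ρ L ≤
              (CB * p) ^ 2 * (CE * T * E * q) ^ 2 * mn ρ L := by gcongr
            _ = (CB * CE * T * E) ^ 2 * (p ^ 2 * q ^ 2 * mn ρ L) := by ring
            _ ≤ M := by
                rw [hM]
                gcongr)
      rw [Nat.floor_natCast] at h1
      exact h1)
  have hsum : ∑ Q ∈ S, ‖Bm m s α N Q‖ ^ 2 = ∑ Q ∈ S, ‖F Q (zx Q) (zy Q)‖ ^ 2 :=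
    Finset.sum_congr rfl fun Q hQ => by rw [hBF Q hQ]
  rw [hsum]
  refine key.trans ?_
  have hT2 : T ^ 2 = (1 + |s.im| + |(m : ℝ)|) ^ (2 * kE) := by
    rw [hT, ← pow_mul, mul_comm]
  have hYp : Y ^ (3 + ε / 2) * Y ^ (14 * κ) ≤ Y ^ (3 + ε) := by
    rw [← Real.rpow_add hY0]
    exact Real.rpow_le_rpow_of_exponent_le hY (by linarith)
  calc 16 * (CL * Y ^ (3 + ε / 2) * ρ * M) =
      16 * CL * (CB * CE) ^ 2 * T ^ 2 * E ^ 2 * (Y ^ (3 + ε / 2) * Y ^ (14 * κ)) * ρ * N := by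
        rw [hM]
        ring
    _ ≤ 16 * CL * (CB * CE) ^ 2 * T ^ 2 * E ^ 2 * Y ^ (3 + ε) * ρ * N := by gcongr
    _ = _ := by rw [hT2]

end Pool.Agent.H14.FC
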