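import Pool.Agent.H6.FC.Lem

/-!
Board cfp_modules (MP_7500ea_al), rows KRN and SLQ.
-/

set_option autoImplicit false

open scoped Classical ComplexConjugate

namespace Pool.Agent.H14.FC

open FI AMc AMt

theorem pf_SLQ (SOL : T_SOL) (KKP : T_KKP) : T_SLQ := by
  intro e Y _ _ hCA Γ _ _ K U hKU θ hθ hinv h hK
  have h1 := hCA Γ K U hKU θ hθ hinv ((QuotientGroup.mk' (sol Y)).comp h)
    (fun x hx => by rw [MonoidHom.comp_apply, hK x hx, map_one])
  rw [(SOL Y).2.2.2, Subgroup.index_bot] at h1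
  have h2 : Nat.card (Y ⧸ sol Y) = (sol Y).index := rfl
  rw [h2] at h1
  have h3 := (KKP Γ K U hKU.le θ hθ).2.2
  have hdd : 0 ≤ dd U θ := (Nat.cast_nonneg _).trans h3
  refine h1.trans (mul_le_mul_of_nonneg_right ?_ hdd)
  rw [MonoidHom.range_comp, idx_map_mk]
  exact_mod_cast Subgroup.index_antitone (le_sup_left : h.range ≤ h.range ⊔ sol Y)

theorem pf_KRN (CLF : T_CLF) (SPL : T_SPL) (DGL : T_DGL) (_KKP : T_KKP) : T_KRN := by
  intro e Y _ _ hCAI Γ _ _ K U hKU θ hθ hinv h hK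
  let M : Subgroup Γ := h.ker.map U.subtype
  have hMU : M ≤ U := Subgroup.map_subtype_le _
  have hM : ∀ x : U, (x : Γ) ∈ M ↔ h x = 1 := by
    intro x
    constructor
    · rintro ⟨y, hy, hyx⟩
      have : y = x := Subtype.ext hyx
      rw [← this]; exact hy
    · intro hx
      exact ⟨x, hx, rfl⟩
  have hKM : K ≤ M := by
    intro k hk
    have h1 : k = ((⟨k, hKU.le hk⟩ : U) : Γ) := rfl
    rw [h1, hM]
    exact hK _ hk
  have hMn : NIn M U := by
    refine ⟨hMU, ?_⟩
    intro u hu g hg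
    have h1 : u * g * u⁻¹ = ((⟨u, hu⟩ * ⟨g, hMU hg⟩ * ⟨u, hu⟩⁻¹ : U) : Γ) := rfl
    rw [h1, hM, map_mul, map_mul, map_inv, (hM ⟨g, hMU hg⟩).1 hg, mul_one, mul_inv_cancel]
  have hKMn : NIn K M := ⟨hKM, fun u hu g hg => hKU.nor u (hMU hu) g hg⟩
  have hidx : 0 < (h.range.index : ℝ) := by
    have : h.range.index ≠ 0 := Subgroup.index_ne_zero_of_finite
    exact_mod_cast Nat.pos_of_ne_zero this
  set A : ℝ := ((sol Y).index : ℝ) ^ (1 / e) with hA
  have hA0 : 0 ≤ A := by positivity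
  have key := SPL Γ K M U hKM hMn θ hθ (A * (θ 1).re / h.range.index) (by
    intro φ hφ hφθ
    obtain ⟨hMT, hkk, hdd⟩ := CLF Γ M U hMn φ hφ
    have hTU : stab U φ ≤ U := fun x hx => hx.1
    have hD := hCAI Γ M (stab U φ) ⟨hMT, fun u hu g hg => hMn.nor u (hTU hu) g hg⟩ φ hφ
      (fun u hu => hu.2) (h.comp (Subgroup.inclusion hTU)) (fun x => by
        rw [MonoidHom.comp_apply, ← hM]; rfl)
    have hker : h.ker ≤ (stab U φ).subgroupOf U := by
      intro x hx
      rw [Subgroup.mem_subgroupOf]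
      exact hMT ((hM x).2 hx)
    have hi : (h.comp (Subgroup.inclusion hTU)).range.index =
        (stab U φ).relIndex U * h.range.index := by
      rw [MonoidHom.range_comp, Subgroup.inclusion_range, Subgroup.index_map,
        sup_eq_left.2 hker]
      rfl
    rw [hkk, hi, ← hA] at hD
    have d1 := (DGL Γ K M hKMn).1 θ hθ
    have d2 := (DGL Γ K M hKMn).2 θ hθ φ hφ hφθ
    have h3 : (0 : ℝ) ≤ kk U φ := Nat.cast_nonneg _
    have h4 : A * (θ 1).re * kk U φ ≤ h.range.index * dd U φ := by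
      calc A * (θ 1).re * kk U φ ≤ A * (φ 1).re * kk U φ :=
            mul_le_mul_of_nonneg_right (mul_le_mul_of_nonneg_left d2 hA0) h3
        _ ≤ _ := hD
        _ = h.range.index * dd U φ := by rw [hdd]; push_cast; ring
    rw [div_mul_eq_mul_div, div_le_iff₀ hidx]
    calc A * (θ 1).re * kk U φ ≤ h.range.index * dd U φ := h4
      _ = dd U φ * h.range.index := mul_comm _ _)
  rw [div_mul_eq_mul_div, div_le_iff₀ hidx] at key
  calc A * (θ 1).re * kk U θ ≤ dd U θ * h.range.index := key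
    _ = h.range.index * dd U θ := mul_comm _ _

end Pool.Agent.H14.FC
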