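import Pool.Agent.H6.FC.Lem
import Pool.Agent.H55.FI.CPR
import Pool.Agent.H72.FI.ABL

/-!
Board cfp_modules (MP_7500ea_al), row SHM: the shift.
-/

set_option autoImplicit false

open scoped Classical ComplexConjugate

namespace Pool.Agent.H14.FC

open FI AMc AMt

theorem irrS_off {Γ : Type} [Group Γ] {N : Subgroup Γ} {χ : Γ → ℂ} (h : χ ∈ IrrS N) {g : Γ}
    (hg : g ∉ N) : χ g = 0 := by
  obtain ⟨ψ, -, rfl⟩ := h
  rw [ext0, dif_neg hg]

theorem cj_inv {Γ : Type} [Group Γ] (u : Γ) (x : Γ → ℂ) : cj u⁻¹ (cj u x) = x := by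
  funext g
  show x (u * (u⁻¹ * g * u⁻¹⁻¹) * u⁻¹) = x g
  congr 1
  group

section

variable {Γ S J : Type} [Group Γ] [Fintype Γ] [Group S] [Finite S] [Fintype J]

/-- Uniqueness of the two characters. -/
theorem ec_unq (UNQ : T_UNQ) {Z N : Subgroup Γ} {π : N →* (J → S)} {σ : Γ →* Equiv.Perm J}
    {a : Γ → J → MulAut S} (hM : MMf Z N π σ a) (i : J) {μ μ' : Γ → ℂ} {ε ε' : S → ℂ}
    {x : Γ → ℂ} (h : EC (MM N π i) (pj N π i) μ ε x) (h' : EC (MM N π i) (pj N π i) μ' ε' x) :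
    μ = μ' ∧ ε = ε' := by
  refine UNQ Γ S Z (MM N π i) (pj N π i) (hM.zm i) (hM.prf i)
    (fun z hz => (hM.ker i z (hM.zm i hz)).2 hz)
    (fun x hx y hy => hM.mul x (hM.mn i hx) y (hM.mn i hy) i) (hM.sur i) μ h.mem μ' h'.mem
    h.one h'.one ε h.ext.1 ε' h'.ext.1 fun g _ => ?_
  have h1 := h.eq
  rw [h'.eq] at h1
  exact (congrFun h1 g).symm

/-- The value of the shift. -/
theorem shf_val (UNQ : T_UNQ) {Z N : Subgroup Γ} {π : N →* (J → S)} {σ : Γ →* Equiv.Perm J}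
    {a : Γ → J → MulAut S} (hM : MMf Z N π σ a) (s : (S → ℂ) → (S → ℂ)) (i : J) {μ : Γ → ℂ}
    {ε : S → ℂ} {x : Γ → ℂ} (h : EC (MM N π i) (pj N π i) μ ε x) :
    shf (MM N π i) (pj N π i) s x = fun g => μ g * s ε (pj N π i g) := by
  have hex : ∃ w : (Γ → ℂ) × (S → ℂ), EC (MM N π i) (pj N π i) w.1 w.2 x := ⟨(μ, ε), h⟩
  rw [shf, dif_pos hex]
  obtain ⟨h1, h2⟩ := ec_unq UNQ hM i h hex.choose_spec
  rw [← h1, ← h2]

omit [Fintype Γ] [Finite S] in
theorem shf_none {M : Subgroup Γ} {p : Γ → S} (s : (S → ℂ) → (S → ℂ)) {x : Γ → ℂ}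
    (h : ¬ ∃ w : (Γ → ℂ) × (S → ℂ), EC M p w.1 w.2 x) : shf M p s x = x := by
  rw [shf, dif_neg h]

/-- The products lie over the central character. -/
theorem ec_ab (EIR : T_EIR) {Z N : Subgroup Γ} {π : N →* (J → S)} {σ : Γ →* Equiv.Perm J}
    {a : Γ → J → MulAut S} (hC : CPd Z N π σ a) (hM : MMf Z N π σ a) {ν : Γ → ℂ}
    (hν : ν ∈ IrrS Z) (i : J) {μ : Γ → ℂ} {ε ε' : S → ℂ} {x : Γ → ℂ}
    (h : EC (MM N π i) (pj N π i) μ ε x) (hx : x ∈ Ab (MM N π i) ν) (hε' : ε' ∈ Ext S) :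
    (fun g => μ g * ε' (pj N π i g)) ∈ Ab (MM N π i) ν := by
  have hpz : ∀ z ∈ Z, pj N π i z = 1 := fun z hz => (hM.ker i z (hM.zm i hz)).2 hz
  refine EIR Γ S Z (MM N π i) (pj N π i) (hM.zm i) hC.cen hpz
    (fun x hx y hy => hM.mul x (hM.mn i hx) y (hM.mn i hy) i) (hM.sur i) ν hν μ h.mem h.one ?_
    ε' hε'.1
  intro z hz
  have hval := (Pool.Agent.H55.FI.central_val Pool.Agent.H72.FI.pf_ABL (hM.zm i)
    (fun z hz g _ => hC.cen z hz g) hν hx).1 z hz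
  have h1 : x z = μ z * ε 1 := by rw [h.eq]; simp only; rw [hpz z hz]
  have h2 : x 1 = ε 1 := by
    rw [h.eq]; simp only; rw [hpz 1 Z.one_mem, h.one, one_mul]
  have h3 : ε 1 ≠ 0 := by
    have : Fintype S := Fintype.ofFinite S
    obtain ⟨-, d, hd, hd1⟩ := (FI.Lib.lA3 S).1 ε h.ext.1
    rw [hd1]
    exact_mod_cast hd.ne'
  rw [h1, h2, mul_comm (ε 1)] at hval
  exact mul_right_cancel₀ h3 hval

omit [Fintype Γ] [Finite S] in
/-- Membership of conjugates. -/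
theorem mm_conj {Z N : Subgroup Γ} {π : N →* (J → S)} {σ : Γ →* Equiv.Perm J}
    {a : Γ → J → MulAut S} (hM : MMf Z N π σ a) (u : Γ) {i j : J} (hj : σ u i = j) (g : Γ) :
    g ∈ MM N π i ↔ u * g * u⁻¹ ∈ MM N π j := by
  subst hj
  constructor
  · exact fun hg => (hM.cnj u i g hg).1
  · intro hg
    have h1 := (hM.cnj u⁻¹ _ _ hg).1
    have h2 : σ u⁻¹ (σ u i) = i := by
      rw [map_inv]; simp
    have h3 : u⁻¹ * (u * g * u⁻¹) * u⁻¹⁻¹ = g := by group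
    rwa [h2, h3] at h1

/-- Transport of the structure. -/
theorem ec_conj (EX0 : T_EX0) (hS : NAS S) {Z N : Subgroup Γ} {π : N →* (J → S)}
    {σ : Γ →* Equiv.Perm J} {a : Γ → J → MulAut S} (hM : MMf Z N π σ a) (u : Γ) {i j : J}
    (hj : σ u i = j) {μ : Γ → ℂ} {ε : S → ℂ} {x : Γ → ℂ}
    (h : EC (MM N π j) (pj N π j) μ ε x) :
    EC (MM N π i) (pj N π i) (cj u μ) ε (cj u x) := by
  refine ⟨FI.Lib.lS7 Γ (MM N π j) (MM N π i) u (mm_conj hM u hj) _ h.mem, ?_, h.ext, ?_⟩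
  · show μ (u * 1 * u⁻¹) = 1
    rw [mul_one, mul_inv_cancel, h.one]
  · funext g
    show x (u * g * u⁻¹) = μ (u * g * u⁻¹) * ε (pj N π i g)
    rw [h.eq]
    simp only
    by_cases hg : g ∈ MM N π i
    · have h1 := (hM.cnj u i g hg).2
      rw [hj] at h1
      rw [h1, (EX0 S hS).1 ε h.ext (a u i)]
    · have h1 : u * g * u⁻¹ ∉ MM N π j := fun hcon => hg ((mm_conj hM u hj g).2 hcon)
      rw [irrS_off h.mem h1, zero_mul, zero_mul]

end

theorem pf_SHM (UNQ : T_UNQ) (EIR : T_EIR) (EX0 : T_EX0) : T_SHM := by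
  intro Γ S J _ _ _ _ _ hS Z N π σ a hC hM ν hν s hs
  refine ⟨fun i μ ε x h => shf_val UNQ hM s i h, ?_, ?_⟩
  · intro i
    refine ⟨?_, ?_, ?_⟩
    · intro x hx
      by_cases h : ∃ w : (Γ → ℂ) × (S → ℂ), EC (MM N π i) (pj N π i) w.1 w.2 x
      · obtain ⟨⟨μ, ε⟩, h⟩ := h
        rw [shf_val UNQ hM s i h]
        exact ec_ab EIR hC hM hν i h hx (hs.mapsTo h.ext)
      · rw [shf_none s h]; exact hx
    · intro x hx y hy hxy
      by_cases h : ∃ w : (Γ → ℂ) × (S → ℂ), EC (MM N π i) (pj N π i) w.1 w.2 x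
      · obtain ⟨⟨μ, ε⟩, h⟩ := h
        have e1 := shf_val UNQ hM s i h
        have h1 : EC (MM N π i) (pj N π i) μ (s ε) (shf (MM N π i) (pj N π i) s x) :=
          ⟨h.mem, h.one, hs.mapsTo h.ext, e1⟩
        by_cases h' : ∃ w : (Γ → ℂ) × (S → ℂ), EC (MM N π i) (pj N π i) w.1 w.2 y
        · obtain ⟨⟨μ', ε'⟩, h'⟩ := h'
          have e2 := shf_val UNQ hM s i h'
          have h2 : EC (MM N π i) (pj N π i) μ' (s ε') (shf (MM N π i) (pj N π i) s x) :=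
            ⟨h'.mem, h'.one, hs.mapsTo h'.ext, by rw [hxy]; exact e2⟩
          obtain ⟨h3, h4⟩ := ec_unq UNQ hM i h1 h2
          have h5 := hs.injOn h.ext h'.ext h4
          simp only at h3 h5
          rw [h.eq, h'.eq]
          simp only
          rw [h3, h5]
        · exfalso
          apply h'
          rw [hxy, shf_none s h'] at h1
          exact ⟨(μ, s ε), h1⟩
      · by_cases h' : ∃ w : (Γ → ℂ) × (S → ℂ), EC (MM N π i) (pj N π i) w.1 w.2 y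
        · exfalso
          obtain ⟨⟨μ, ε⟩, h'⟩ := h'
          have e1 := shf_val UNQ hM s i h'
          have h1 : EC (MM N π i) (pj N π i) μ (s ε) (shf (MM N π i) (pj N π i) s y) :=
            ⟨h'.mem, h'.one, hs.mapsTo h'.ext, e1⟩
          rw [← hxy, shf_none s h] at h1
          exact h ⟨(μ, s ε), h1⟩
        · rwa [shf_none s h, shf_none s h'] at hxy
    · intro y hy
      by_cases h : ∃ w : (Γ → ℂ) × (S → ℂ), EC (MM N π i) (pj N π i) w.1 w.2 y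
      · obtain ⟨⟨μ, ε⟩, h⟩ := h
        obtain ⟨ε0, hε0, hsε⟩ := hs.surjOn h.ext
        have h1 : EC (MM N π i) (pj N π i) μ ε0 (fun g => μ g * ε0 (pj N π i g)) :=
          ⟨h.mem, h.one, hε0, rfl⟩
        refine ⟨_, ec_ab EIR hC hM hν i h hy hε0, ?_⟩
        rw [shf_val UNQ hM s i h1, hsε]
        exact h.eq.symm
      · exact ⟨y, hy, shf_none s h⟩
  · intro u i x hx
    have hinv : ∀ g, ν (u * g * u⁻¹) = ν g := fun g => congrFun (cen_inv hC.cen hν u) g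
    refine ⟨?_, ?_, fun μ ε h => ec_conj EX0 hS hM u rfl h⟩
    · obtain ⟨h1, h2⟩ := hx
      refine ⟨FI.Lib.lS7 Γ (MM N π (σ u i)) (MM N π i) u (mm_conj hM u rfl) _ h1, ?_⟩
      have h3 : ∑ g : Γ, cj u x g * starRingEnd ℂ (ν g) =
          ∑ g : Γ, x g * starRingEnd ℂ (ν g) := by
        rw [← Equiv.sum_comp (MulAut.conj u).toEquiv (fun g => x g * starRingEnd ℂ (ν g))]
        refine Finset.sum_congr rfl fun g _ => ?_
        change x (u * g * u⁻¹) * _ = x (u * g * u⁻¹) * starRingEnd ℂ (ν (u * g * u⁻¹))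
        rw [hinv]
      unfold Over
      rw [h3]
      exact h2
    · by_cases h : ∃ w : (Γ → ℂ) × (S → ℂ),
          EC (MM N π (σ u i)) (pj N π (σ u i)) w.1 w.2 x
      · obtain ⟨⟨μ, ε⟩, h⟩ := h
        have e1 := shf_val UNQ hM s (σ u i) h
        have h1 : EC (MM N π (σ u i)) (pj N π (σ u i)) μ (s ε)
            (shf (MM N π (σ u i)) (pj N π (σ u i)) s x) :=
          ⟨h.mem, h.one, hs.mapsTo h.ext, e1⟩
        rw [(ec_conj EX0 hS hM u rfl h1).eq, shf_val UNQ hM s i (ec_conj EX0 hS hM u rfl h)]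
      · have h' : ¬ ∃ w : (Γ → ℂ) × (S → ℂ), EC (MM N π i) (pj N π i) w.1 w.2 (cj u x) := by
          rintro ⟨⟨μ, ε⟩, h1⟩
          apply h
          have h2 : σ u⁻¹ (σ u i) = i := by rw [map_inv]; simp
          have h3 := ec_conj EX0 hS hM u⁻¹ h2 h1
          rw [cj_inv] at h3
          exact ⟨(_, _), h3⟩
        rw [shf_none s h, shf_none s h']

end Pool.Agent.H14.FC
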